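import Pool.Agent.W_2411c4_h26.Cuts
import Pool.Agent.W_2411tw_h80.Quo

/-! Mixed cuts and solid atoms: rounding of a set to a union of atoms, the block in the quotient. -/

set_option autoImplicit false

namespace Pool.Agent.W2411si

open Pool.Agent.W2411c4

variable {Q : Type}

open Gr

theorem ebd_sub_bd {G : Gr Q} {S T : Finset ℕ} : ebd G S T ⊆ G.bd S := by
  intro e he
  obtain ⟨h1, h2⟩ := mem_ebd.1 he
  refine G.mem_bd.2 ⟨h1, ?_⟩
  unfold Lv at h2
  unfold Gr.Cross
  tauto

/-- a solid set is solid for mixed cuts -/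
theorem solid_ed {G : Gr Q} {A T Y : Finset ℕ} (hd : G.d A ≤ G.d Y) (hY : Y ⊆ A)
    (hAT : Disjoint A T) : ed G A T ≤ ed G Y T := by
  classical
  have h1 : G.bd Y \ ebd G Y T ⊆ G.bd A \ ebd G A T := by
    intro e he
    rw [Finset.mem_sdiff, Gr.mem_bd, mem_ebd] at he ⊢
    obtain ⟨⟨heE, hc⟩, hn⟩ := he
    have a1 : G.a e ∈ Y → G.a e ∈ A := fun h => hY h
    have a2 : G.a e ∈ A → G.a e ∉ T := fun h => Finset.disjoint_left.1 hAT h
    have b1 : G.b e ∈ Y → G.b e ∈ A := fun h => hY h
    have b2 : G.b e ∈ A → G.b e ∉ T := fun h => Finset.disjoint_left.1 hAT h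
    unfold Lv at hn ⊢
    unfold Gr.Cross at hc ⊢
    tauto
  have h2 := Finset.card_le_card h1
  have h3 := Finset.card_sdiff_add_card_eq_card (ebd_sub_bd (G := G) (S := Y) (T := T))
  have h4 := Finset.card_sdiff_add_card_eq_card (ebd_sub_bd (G := G) (S := A) (T := T))
  unfold Gr.d at hd
  unfold ed
  omega

theorem ed_union_solid {G : Gr Q} {A T U : Finset ℕ} {c : ℕ} (hc : ∀ Y ⊆ A, c ∈ Y → G.d A ≤ G.d Y)
    (hcA : c ∈ A) (hcU : c ∈ U) (hAT : Disjoint A T) : ed G (U ∪ A) T ≤ ed G U T := by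
  classical
  have h1 : ed G (U ∩ A) T + ed G (U ∪ A) T ≤ ed G U T + ed G A T := by
    apply ed_sub
    · intro v
      simp only [Finset.mem_union, Finset.mem_inter]
      tauto
    · intro v
      simp only [Finset.mem_union]
      tauto
  have h2 := solid_ed (T := T) (hc (U ∩ A) Finset.inter_subset_right
    (Finset.mem_inter.2 ⟨hcU, hcA⟩)) Finset.inter_subset_right hAT
  omega

theorem ed_sdiff_solid {G : Gr Q} {A T U : Finset ℕ} {c : ℕ} (hc : ∀ Y ⊆ A, c ∈ Y → G.d A ≤ G.d Y)
    (hcA : c ∈ A) (hcU : c ∉ U) (hAT : Disjoint A T) (hUT : Disjoint U T) :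
    ed G (U \ A) T ≤ ed G U T := by
  classical
  have h1 := ed_pos (G := G) hUT hAT
  have h2 := solid_ed (T := T) (hc (A \ U) Finset.sdiff_subset
    (Finset.mem_sdiff.2 ⟨hcA, hcU⟩)) Finset.sdiff_subset hAT
  omega

/-- a mixed cut can be changed to one which does not cross the solid atoms -/
theorem round_ed {G : Gr Q} {At : Finset (Finset ℕ)} (hs : ∀ A ∈ At, Solid G A)
    (hu : ∀ A ∈ At, ∀ B ∈ At, ∀ x, x ∈ A → x ∈ B → A = B) {T U : Finset ℕ} (hUT : Disjoint U T)
    (hT : ∀ A ∈ At, Disjoint A T ∨ ∃ x, A = {x}) :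
    ∃ U', Disjoint U' T ∧ ed G U' T ≤ ed G U T ∧ (∀ A ∈ At, A ⊆ U' ∨ Disjoint A U') ∧
      ∀ x, ((∀ A ∈ At, x ∉ A) ∨ {x} ∈ At) → (x ∈ U' ↔ x ∈ U) := by
  classical
  have key : ∀ S : Finset (Finset ℕ), S ⊆ At → ∃ U', Disjoint U' T ∧ ed G U' T ≤ ed G U T ∧
      (∀ A ∈ S, A ⊆ U' ∨ Disjoint A U') ∧
      ∀ x, ((∀ A ∈ At, x ∉ A) ∨ {x} ∈ At) → (x ∈ U' ↔ x ∈ U) := by
    intro S
    induction S using Finset.induction_on with
    | empty =>
      intro _
      exact ⟨U, hUT, le_rfl, fun A hA => absurd hA (Finset.notMem_empty _), fun _ _ => Iff.rfl⟩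
    | @insert A S _ ih =>
      intro hS
      obtain ⟨Z, h1, h2, h3, h4⟩ := ih fun B hB => hS (Finset.mem_insert_of_mem hB)
      have hA : A ∈ At := hS (Finset.mem_insert_self _ _)
      by_cases hsing : ∃ x, A = {x}
      · obtain ⟨x, hx⟩ := hsing
        refine ⟨Z, h1, h2, ?_, h4⟩
        intro B hB
        rcases Finset.mem_insert.1 hB with rfl | hB
        · rw [hx, Finset.singleton_subset_iff, Finset.disjoint_singleton_left]
          exact em _
        · exact h3 B hB
      · have hAT : Disjoint A T := (hT A hA).resolve_right hsing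
        have hout : ∀ x, ((∀ A ∈ At, x ∉ A) ∨ {x} ∈ At) → x ∉ A := by
          intro x hx hxA
          rcases hx with hx | hx
          · exact hx A hA hxA
          · exact hsing ⟨x, hu A hA {x} hx x hxA (Finset.mem_singleton_self _)⟩
        obtain ⟨c, hcA, hc⟩ := hs A hA
        by_cases hcZ : c ∈ Z
        · refine ⟨Z ∪ A, ?_, (ed_union_solid hc hcA hcZ hAT).trans h2, ?_, ?_⟩
          · rw [Finset.disjoint_union_left]
            exact ⟨h1, hAT⟩
          · intro B hB
            by_cases hBA : B = A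
            · rw [hBA]
              exact Or.inl Finset.subset_union_right
            · have hBS : B ∈ S := (Finset.mem_insert.1 hB).resolve_left hBA
              rcases h3 B hBS with h6 | h6
              · exact Or.inl (h6.trans Finset.subset_union_left)
              · right
                rw [Finset.disjoint_union_right]
                refine ⟨h6, Finset.disjoint_left.2 fun x hx hx' => hBA ?_⟩
                exact hu B (hS hB) A hA x hx hx'
          · intro x hx
            rw [Finset.mem_union, h4 x hx]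
            exact ⟨fun h => h.resolve_right (hout x hx), Or.inl⟩
        · refine ⟨Z \ A, h1.mono_left Finset.sdiff_subset,
            (ed_sdiff_solid hc hcA hcZ hAT h1).trans h2, ?_, ?_⟩
          · intro B hB
            by_cases hBA : B = A
            · rw [hBA]
              exact Or.inr Finset.disjoint_sdiff
            · have hBS : B ∈ S := (Finset.mem_insert.1 hB).resolve_left hBA
              rcases h3 B hBS with h6 | h6
              · left
                intro x hx
                exact Finset.mem_sdiff.2 ⟨h6 hx, fun hxA => hBA (hu B (hS hB) A hA x hx hxA)⟩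
              · exact Or.inr (h6.mono_right Finset.sdiff_subset)
          · intro x hx
            rw [Finset.mem_sdiff, h4 x hx]
            exact ⟨fun h => h.1, fun h => ⟨h, hout x hx⟩⟩
  exact key At (Finset.Subset.refl _)

/-- mixed cuts of the quotient -/
theorem ed_quo {G : Gr Q} {At : Finset (Finset ℕ)} {M T' U T : Finset ℕ}
    (hM : ∀ x, rho At x ∈ M ↔ x ∈ U) (hT : ∀ x, rho At x ∈ T' ↔ x ∈ T) :
    ed (quo G At) M T' = ed G U T := by
  unfold ed
  congr 1
  ext e
  rw [mem_ebd, mem_ebd, mem_quoE]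
  have ha : (quo G At).a e = rho At (G.a e) := rfl
  have hb : (quo G At).b e = rho At (G.b e) := rfl
  unfold Lv
  rw [ha, hb, hM, hM, hT, hT]
  constructor
  · rintro ⟨⟨h1, _⟩, h2⟩
    exact ⟨h1, h2⟩
  · rintro ⟨h1, h2⟩
    refine ⟨⟨h1, fun h => ?_⟩, h2⟩
    have h3 := hM (G.a e)
    rw [h, hM] at h3
    tauto

section

variable {G : Gr Q} {X : Finset ℕ} {At : Finset (Finset ℕ)}

theorem rho_single (hP : Part X At) {b : ℕ} (hb : {b} ∈ At ∨ b ∉ X) : rho At b = b := by
  rcases hb with h | h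
  · rw [hP.rho_eq h (Finset.mem_singleton_self _)]
    exact Finset.mem_singleton.1 (hP.rp_in h)
  · exact hP.rho_out h

theorem rho_mem_single (hP : Part X At) {T : Finset ℕ} (hT : ∀ b ∈ T, {b} ∈ At ∨ b ∉ X) (x : ℕ) :
    rho At x ∈ T ↔ x ∈ T := by
  constructor
  · intro h
    by_cases hx : x ∈ X
    · obtain ⟨A, hA, hxA⟩ := (hP.cov x).1 hx
      rw [hP.rho_eq hA hxA] at h
      rcases hT _ h with h1 | h1
      · have h2 := hP.uniq A hA _ h1 (rp A) (hP.rp_in hA) (Finset.mem_singleton_self _)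
        rw [h2, Finset.mem_singleton] at hxA
        rw [hxA]
        exact h
      · exact absurd (hP.rp_inX hA) h1
    · rwa [hP.rho_out hx] at h
  · intro h
    rw [rho_single hP (hT x h)]
    exact h

theorem rho_image (hP : Part X At) {U : Finset ℕ} (hU : ∀ A ∈ At, A ⊆ U ∨ Disjoint A U) (x : ℕ) :
    rho At x ∈ U.image (rho At) ↔ x ∈ U := by
  constructor
  · intro h
    obtain ⟨y, hy, hxy⟩ := Finset.mem_image.1 h
    by_cases hx : x ∈ X
    · have hyX : y ∈ X := by
        by_contra hyX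
        rw [hP.rho_out hyX] at hxy
        obtain ⟨A, hA, hxA⟩ := (hP.cov x).1 hx
        rw [hP.rho_eq hA hxA] at hxy
        exact hyX (hxy ▸ hP.rp_inX hA)
      obtain ⟨A, hA, hxA⟩ := (hP.cov x).1 hx
      obtain ⟨B, hB, hyB⟩ := (hP.cov y).1 hyX
      rw [hP.rho_eq hA hxA, hP.rho_eq hB hyB] at hxy
      have hAB := hP.rp_inj hB hA hxy
      rw [hAB] at hyB
      rcases hU A hA with h1 | h1
      · exact h1 hxA
      · exact absurd hy (Finset.disjoint_left.1 h1 hyB)
    · have hyX : y ∉ X := by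
        intro hyX
        obtain ⟨B, hB, hyB⟩ := (hP.cov y).1 hyX
        rw [hP.rho_eq hB hyB, hP.rho_out hx] at hxy
        exact hx (hxy ▸ hP.rp_inX hB)
      rw [hP.rho_out hx, hP.rho_out hyX] at hxy
      rwa [← hxy]
  · exact fun h => Finset.mem_image_of_mem _ h

/-- no fat star in the quotient by solid atoms -/
theorem SF.quo (hP : Part X At) (hs : ∀ A ∈ At, Solid G A) {B : Finset ℕ} {t : ℕ}
    (hB : ∀ b ∈ B, {b} ∈ At ∨ b ∉ X) (h : SF G B t) : SF (quo G At) B t := by
  intro z hz S hS hstar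
  refine h z hz S hS ⟨hstar.1, hstar.2.1, ?_⟩
  intro b hb U hzU hbU hUT
  have hTB : ∀ x ∈ S.erase b, {x} ∈ At ∨ x ∉ X := fun x hx => hB x (hS (Finset.mem_of_mem_erase hx))
  obtain ⟨U', h1, h2, h3, h4⟩ := round_ed hs hP.uniq hUT (by
    intro A hA
    by_cases hd : Disjoint A (S.erase b)
    · exact Or.inl hd
    · right
      obtain ⟨x, hx, hx'⟩ := Finset.not_disjoint_iff.1 hd
      rcases hTB x hx' with h5 | h5
      · exact ⟨x, hP.uniq A hA _ h5 x hx (Finset.mem_singleton_self _)⟩
      · exact absurd ((hP.cov x).2 ⟨A, hA, hx⟩) h5)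
  have hfix : ∀ x ∈ B, ((∀ A ∈ At, x ∉ A) ∨ {x} ∈ At) := by
    intro x hx
    rcases hB x hx with h5 | h5
    · exact Or.inr h5
    · exact Or.inl fun A hA hxA => h5 ((hP.cov x).2 ⟨A, hA, hxA⟩)
  have hb' : b ∈ B := hS hb
  have hzU' : z ∈ U' := (h4 z (hfix z hz)).2 (hzU (Finset.mem_singleton_self _))
  have hbU' : b ∉ U' := fun h5 => hbU ((h4 b (hfix b hb')).1 h5)
  have key := hstar.2.2 b hb (U'.image (rho At)) (by
    rw [Finset.singleton_subset_iff, ← rho_single hP (hB z hz)]
    exact (rho_image hP h3 z).2 hzU') (by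
    rw [← rho_single hP (hB b hb')]
    exact fun h5 => hbU' ((rho_image hP h3 b).1 h5)) (by
    rw [Finset.disjoint_left]
    intro y hy hy'
    obtain ⟨x, hx, rfl⟩ := Finset.mem_image.1 hy
    exact Finset.disjoint_left.1 h1 hx ((rho_mem_single hP hTB x).1 hy'))
  rw [ed_quo (rho_image hP h3) (rho_mem_single hP hTB)] at key
  exact key.trans h2

/-- the block stays edge-connected in the quotient -/
theorem Bk.quo (hP : Part X At) {B : Finset ℕ} {M : ℕ} (hB : ∀ b ∈ B, {b} ∈ At ∨ b ∉ X)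
    (h : Bk G B M) : Bk (quo G At) B M := by
  classical
  intro x hx y hy hxy U hxU hyU
  have hU : ∀ v, rho At v ∈ U ↔ v ∈ (X ∪ U).filter fun v => rho At v ∈ U := by
    intro v
    rw [Finset.mem_filter, Finset.mem_union]
    constructor
    · intro hv
      refine ⟨?_, hv⟩
      by_cases hvX : v ∈ X
      · exact Or.inl hvX
      · rw [hP.rho_out hvX] at hv
        exact Or.inr hv
    · exact fun hv => hv.2
  have h1 := ed_quo (G := G) (T' := ∅) (T := ∅) hU (fun _ => by simp)
  rw [ed_empty, ed_empty] at h1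
  rw [h1]
  refine h x hx y hy hxy _ ?_ ?_
  · rw [← hU, rho_single hP (hB x hx)]
    exact hxU
  · rw [← hU, rho_single hP (hB y hy)]
    exact hyU

end

end Pool.Agent.W2411si
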