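import Pool.Agent.W_2411c4_h26.StarPaths

/-! Lemma 1, second half: a fat star gives a strong immersion of every closed graph with at most `t`
vertices and at most `t` edges. -/

set_option autoImplicit false

namespace Pool.Agent.W2411si

open Pool.Agent.W2411c4

variable {Q : Type}

open Gr

theorem not_cross_of_n {P : Pc Q} (h : P.n = 0) {e : ℕ} (he : e ∈ P.G.E) : ¬ P.G.Cross P.X e := by
  intro hc
  obtain ⟨i, hi, _⟩ := P.exists_o he hc
  omega

theorem inner_of_touch {P : Pc Q} (h : P.n = 0) {e : ℕ} (he : e ∈ P.G.E) (ht : P.G.Touch P.X e) :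
    P.G.Inner P.X e := by
  rcases touch_iff.1 ht with h1 | h1
  · exact h1
  · exact absurd h1 (not_cross_of_n h he)

/-- a connection by edges which do not cross `X` stays inside `X` -/
theorem conn_inner {G : Gr Q} {X : Finset ℕ} {F : Set ℕ} (hF : ∀ f ∈ F, ¬ G.Cross X f) {u v : ℕ}
    (h : G.Conn F u v) (hu : u ∈ X) : v ∈ X ∧ G.Conn (F ∩ {f | G.Inner X f}) u v := by
  induction h with
  | refl => exact ⟨hu, Conn.refl⟩
  | @tail b c _ hbc ih =>
    obtain ⟨hb, hconn⟩ := ih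
    obtain ⟨f, hf, hend⟩ := hbc
    have hnc := hF f hf
    unfold Gr.Cross at hnc
    have hc : c ∈ X := by
      rcases hend with ⟨h1, h2⟩ | ⟨h1, h2⟩
      · rw [h1, h2] at hnc
        tauto
      · rw [h1, h2] at hnc
        tauto
    refine ⟨hc, Relation.ReflTransGen.tail hconn ⟨f, ⟨hf, ?_⟩, hend⟩⟩
    rcases hend with ⟨h1, h2⟩ | ⟨h1, h2⟩
    · exact ⟨h1 ▸ hb, h2 ▸ hc⟩
    · exact ⟨h1 ▸ hc, h2 ▸ hb⟩

private theorem starimm_code (s : Finset ℕ) {n : ℕ} (h : s.card ≤ n) :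
    ∃ f : ℕ → ℕ, (∀ x ∈ s, f x < n) ∧ ∀ x ∈ s, ∀ y ∈ s, f x = f y → x = y := by
  classical
  refine ⟨fun x => if h : x ∈ s then (s.equivFin ⟨x, h⟩).1 else 0, ?_, ?_⟩
  · intro x hx
    simp only [hx, dif_pos]
    exact (s.equivFin ⟨x, hx⟩).2.trans_le h
  · intro x hx y hy hxy
    simp only [hx, hy, dif_pos] at hxy
    have h1 := s.equivFin.injective (Fin.ext hxy)
    exact congrArg Subtype.val h1

/-- **Lemma 1.** -/
theorem star_imm [LE Q] {H P : Pc Q} {t z : ℕ} {S : Finset ℕ} (hH : H.n = 0) (hP : P.n = 0)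
    (hX : H.X.card ≤ t) (hE : (H.G.E.filter fun e => H.G.Touch H.X e).card ≤ t)
    (hS : Star P.G t z S) (hSX : S ⊆ P.X)
    (hlab : ∀ x ∈ H.X, ∀ b ∈ S, H.G.lab x ≤ P.G.lab b) : Rp H P := by
  classical
  obtain ⟨R, hR1, hR2, hR3⟩ := star_paths hS
  obtain ⟨-, hcard, -⟩ := hS
  obtain ⟨c, hc1, hc2⟩ := starimm_code H.X hX
  obtain ⟨i, hi1, hi2⟩ := starimm_code _ hE
  have hg : ∃ g : ℕ → ℕ, (∀ j < t, g j ∈ S) ∧ ∀ j < t, ∀ k < t, g j = g k → j = k := by
    refine ⟨fun j => if h : j < t then S.orderEmbOfFin hcard ⟨j, h⟩ else 0, ?_, ?_⟩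
    · intro j hj
      simp only [hj, dif_pos]
      exact Finset.orderEmbOfFin_mem S hcard ⟨j, hj⟩
    · intro j hj k hk hjk
      simp only [hj, hk, dif_pos] at hjk
      exact Fin.mk.inj_iff.1 ((S.orderEmbOfFin hcard).injective hjk)
  obtain ⟨g, hg1, hg2⟩ := hg
  have hη : ∀ x ∈ H.X, g (c x) ∈ S := fun x hx => hg1 _ (hc1 x hx)
  have hηi : ∀ x ∈ H.X, ∀ y ∈ H.X, g (c x) = g (c y) → x = y := fun x hx y hy hxy =>
    hc2 x hx y hy (hg2 _ (hc1 x hx) _ (hc1 y hy) hxy)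
  have hie : ∀ e ∈ H.G.E, H.G.Touch H.X e → i e < t := fun e he ht =>
    hi1 e (Finset.mem_filter.2 ⟨he, ht⟩)
  have hRc : ∀ b ∈ S, ∀ j < t, P.G.Conn (R b j ∩ {f | P.G.Inner P.X f}) b z := by
    intro b hb j hj
    exact (conn_inner (fun f hf => not_cross_of_n hP (hR1 b hb j hj f hf).1) (hR2 b hb j hj).symm
      (hSX hb)).2
  refine ⟨fun x => g (c x), fun e => (R (g (c (H.G.a e))) (i e) ∪ R (g (c (H.G.b e))) (i e)) ∩
    {f | P.G.Inner P.X f}, ?_⟩
  refine
    { n_eq := hH.trans hP.symm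
      maps := fun x hx => hSX (hη x hx)
      inj := hηi
      lab := fun x hx => hlab x hx _ (hη x hx)
      sub_in := ?_
      sub_bd := fun j hj => by omega
      mem_bd := fun j hj => by omega
      conn_in := ?_
      conn_bd := fun j hj => by omega
      disj := ?_
      strong := ?_ }
  · rintro e he hin f ⟨hf, hfin⟩
    have hit := hie e he hin.touch
    refine ⟨?_, hfin⟩
    rcases hf with hf | hf
    · exact (hR1 _ (hη _ hin.1) _ hit f hf).1
    · exact (hR1 _ (hη _ hin.2) _ hit f hf).1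
  · intro e he hin
    have hit := hie e he hin.touch
    refine Conn.trans ((hRc _ (hη _ hin.1) _ hit).mono ?_) ((hRc _ (hη _ hin.2) _ hit).symm.mono ?_)
    · rintro f ⟨h1, h2⟩
      exact ⟨Or.inl h1, h2⟩
    · rintro f ⟨h1, h2⟩
      exact ⟨Or.inr h1, h2⟩
  · intro e he f hf hte htf hne
    have hin := inner_of_touch hH he hte
    have hin' := inner_of_touch hH hf htf
    have hit := hie e he hte
    have hit' := hie f hf htf
    have hii : i e ≠ i f := fun h => hne (hi2 e (Finset.mem_filter.2 ⟨he, hte⟩) f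
      (Finset.mem_filter.2 ⟨hf, htf⟩) h)
    have key : ∀ b ∈ S, ∀ b' ∈ S, Disjoint (R b (i e)) (R b' (i f)) := fun b hb b' hb' =>
      hR3 b hb _ hit b' hb' _ hit' (fun h => hii (Prod.ext_iff.1 h).2)
    rw [Set.disjoint_left]
    rintro x ⟨hx, _⟩ ⟨hx', _⟩
    rcases hx with hx | hx <;> rcases hx' with hx' | hx'
    · exact Set.disjoint_left.1 (key _ (hη _ hin.1) _ (hη _ hin'.1)) hx hx'
    · exact Set.disjoint_left.1 (key _ (hη _ hin.1) _ (hη _ hin'.2)) hx hx'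
    · exact Set.disjoint_left.1 (key _ (hη _ hin.2) _ (hη _ hin'.1)) hx hx'
    · exact Set.disjoint_left.1 (key _ (hη _ hin.2) _ (hη _ hin'.2)) hx hx'
  · rintro e he hte y hy hny f ⟨hf, _⟩ hinc
    have hin := inner_of_touch hH he hte
    have hit := hie e he hte
    rcases hf with hf | hf
    · have h1 := (hR1 _ (hη _ hin.1) _ hit f hf).2 _ (hη y hy) hinc
      exact hny (Or.inl (hηi y hy _ hin.1 h1))
    · have h1 := (hR1 _ (hη _ hin.2) _ hit f hf).2 _ (hη y hy) hinc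
      exact hny (Or.inr (hηi y hy _ hin.2 h1))

end Pool.Agent.W2411si
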