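import Pool.Agent.W_2411c4_h59.Defs

/-! Tree decompositions of finite multigraphs and elimination orders. -/

set_option autoImplicit false

namespace Pool.Agent.W2411si

open Pool.Agent.W2411c4

/-- `G` has a tree decomposition of width at most `k`: a tree and a set (bag) of at most `k + 1`
vertices of `G` at each node, such that every vertex and every edge of `G` is contained in a bag, and
a vertex in two bags is in all bags of the path of the tree between them. -/
def TreeWidthLE (k : ℕ) (G : MGraph) : Prop :=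
  ∃ (T : Type) (S : SimpleGraph T) (bag : T → Set G.V), S.IsTree ∧
    (∀ v, ∃ t, v ∈ bag t) ∧
    (∀ e, ∃ t, ∀ v ∈ G.ends e, v ∈ bag t) ∧
    (∀ s t (p : S.Walk s t), p.IsPath → ∀ r ∈ p.support, bag s ∩ bag t ⊆ bag r) ∧
    ∀ t, (bag t).ncard ≤ k + 1

/-- elimination orders -/
structure ElimO (G : MGraph) (k : ℕ) (up : G.V → Set G.V) (rk : G.V → ℕ) : Prop where
  inj : ∀ v w, rk v = rk w → v = w
  card : ∀ v, (up v).ncard ≤ k
  rk_lt : ∀ v, ∀ w ∈ up v, rk v < rk w
  clique : ∀ v, ∀ w ∈ up v, ∀ w' ∈ up v, w = w' ∨ w' ∈ up w ∨ w ∈ up w'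
  edge : ∀ e u v, G.ends e = s(u, v) → v ∈ up u ∨ u ∈ up v

theorem TreeWidthLE.elim {k : ℕ} {G : MGraph} (h : TreeWidthLE k G) :
    ∃ up rk, ElimO G k up rk := by
  classical
  obtain ⟨T, S, bag, hT, hv, he, hp, hk⟩ := h
  have : Finite G.V := G.finV
  obtain ⟨r0⟩ := hT.1.nonempty
  have hP : ∀ t, ∃ P : S.Walk r0 t, P.IsPath ∧ ∀ q : S.Walk r0 t, q.IsPath → q = P := by
    intro t
    obtain ⟨P, h1, h2⟩ := hT.existsUnique_path r0 t
    exact ⟨P, h1, fun q hq => h2 q hq⟩
  choose P hPp hPu using hP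
  -- the length
  have hlen : ∀ t x, x ∈ (P t).support → (P x).length ≤ (P t).length ∧
      ((P x).length = (P t).length → x = t) := by
    intro t x hx
    have h1 : ((P t).takeUntil x hx) = P x := hPu x _ ((hPp t).takeUntil hx)
    have h2 := congrArg SimpleGraph.Walk.length ((P t).take_spec hx)
    rw [SimpleGraph.Walk.length_append, h1] at h2
    refine ⟨by omega, fun h3 => ?_⟩
    exact SimpleGraph.Walk.eq_of_length_eq_zero (p := (P t).dropUntil x hx) (by omega)
  -- the top node of a vertex
  have htop : ∀ v, ∃ s, v ∈ bag s ∧ ∀ t, v ∈ bag t → (P s).length ≤ (P t).length := by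
    intro v
    have h1 : ∃ n, ∃ t, v ∈ bag t ∧ (P t).length = n := by
      obtain ⟨t, ht⟩ := hv v
      exact ⟨_, t, ht, rfl⟩
    obtain ⟨s, hs, hn⟩ := Nat.find_spec h1
    refine ⟨s, hs, fun t ht => ?_⟩
    rw [hn]
    exact Nat.find_min' h1 ⟨t, ht, rfl⟩
  choose top htop1 htop2 using htop
  have hsplit : ∀ v t, v ∈ bag t → ∃ p : S.Walk (top v) t, p.IsPath ∧
      P t = (P (top v)).append p := by
    intro v t ht
    obtain ⟨p, h1, _⟩ := hT.existsUnique_path (top v) t
    refine ⟨p, h1, (hPu t _ ?_).symm⟩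
    rw [SimpleGraph.Walk.isPath_def, SimpleGraph.Walk.support_append, List.nodup_append]
    have hnd : p.support.Nodup := (SimpleGraph.Walk.isPath_def p).1 h1
    have hcons : p.support = top v :: p.support.tail := (SimpleGraph.Walk.cons_tail_support p).symm
    have hnd' : p.support.tail.Nodup := by
      rw [hcons] at hnd
      exact (List.nodup_cons.1 hnd).2
    refine ⟨(SimpleGraph.Walk.isPath_def _).1 (hPp _), hnd', ?_⟩
    intro x hx y hy hxy
    subst hxy
    have hxs : x ∈ p.support := List.mem_of_mem_tail hy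
    have h2 := htop2 v x (hp _ _ p h1 x hxs ⟨htop1 v, ht⟩)
    have h3 := hlen _ x hx
    have h4 := h3.2 (by omega)
    rw [hcons] at hnd
    exact (List.nodup_cons.1 hnd).1 (h4 ▸ hy)
  have hA : ∀ v t, v ∈ bag t → top v ∈ (P t).support := by
    intro v t ht
    obtain ⟨p, _, h2⟩ := hsplit v t ht
    rw [h2, SimpleGraph.Walk.mem_support_append_iff]
    exact Or.inl (SimpleGraph.Walk.end_mem_support _)
  have hB : ∀ v t s, v ∈ bag t → s ∈ (P t).support → (P (top v)).length ≤ (P s).length →
      v ∈ bag s := by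
    intro v t s ht hs hle
    obtain ⟨p, h1, h2⟩ := hsplit v t ht
    rw [h2, SimpleGraph.Walk.mem_support_append_iff] at hs
    rcases hs with hs | hs
    · have h3 := hlen _ s hs
      rw [h3.2 (by omega)]
      exact htop1 v
    · exact hp _ _ p h1 s hs ⟨htop1 v, ht⟩
  -- the rank
  obtain ⟨L, hL⟩ : ∃ L, ∀ v, (P (top v)).length ≤ L := by
    obtain ⟨L, hL⟩ := (Set.finite_range fun v => (P (top v)).length).bddAbove
    exact ⟨L, fun v => hL ⟨v, rfl⟩⟩
  let c : G.V → ℕ := fun v => (Finite.equivFin G.V v).1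
  have hc : ∀ v, c v < Nat.card G.V := fun v => (Finite.equivFin G.V v).2
  have hci : ∀ v w, c v = c w → v = w := fun v w h => (Finite.equivFin G.V).injective (Fin.ext h)
  let rk : G.V → ℕ := fun v => (L - (P (top v)).length) * Nat.card G.V + c v
  have hrk : ∀ v w, rk v ≤ rk w → (P (top w)).length ≤ (P (top v)).length := by
    intro v w h
    by_contra hlt
    rw [not_le] at hlt
    have h1 : (L - (P (top w)).length) + 1 ≤ L - (P (top v)).length := by
      have := hL w
      omega
    have h2 := Nat.mul_le_mul_right (Nat.card G.V) h1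
    rw [Nat.add_mul, one_mul] at h2
    have h3 := hc w
    change (L - (P (top v)).length) * Nat.card G.V + c v ≤
      (L - (P (top w)).length) * Nat.card G.V + c w at h
    omega
  have hinj : ∀ v w, rk v = rk w → v = w := by
    intro v w h
    have h1 := hrk v w h.le
    have h2 := hrk w v h.ge
    have h3 : (P (top v)).length = (P (top w)).length := by omega
    change (L - (P (top v)).length) * Nat.card G.V + c v =
      (L - (P (top w)).length) * Nat.card G.V + c w at h
    rw [h3] at h
    exact hci v w (by omega)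
  refine ⟨fun v => {w | w ∈ bag (top v) ∧ rk v < rk w}, rk, hinj, ?_, ?_, ?_, ?_⟩
  · intro v
    have h1 : insert v {w | w ∈ bag (top v) ∧ rk v < rk w} ⊆ bag (top v) := by
      intro w hw
      rcases hw with rfl | hw
      · exact htop1 w
      · exact hw.1
    have h2 := Set.ncard_le_ncard h1 (Set.toFinite _)
    rw [Set.ncard_insert_of_notMem (fun h => absurd h.2 (lt_irrefl _)) (Set.toFinite _)] at h2
    have h3 := hk (top v)
    omega
  · exact fun v w hw => hw.2
  · intro v w hw w' hw'
    have key : ∀ w w', w ∈ bag (top v) → w' ∈ bag (top v) → rk w < rk w' →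
        w' ∈ bag (top w) := fun w w' h1 h2 h3 => hB w' _ _ h2 (hA w _ h1) (hrk w w' h3.le)
    rcases lt_trichotomy (rk w) (rk w') with h1 | h1 | h1
    · exact Or.inr (Or.inl ⟨key w w' hw.1 hw'.1 h1, h1⟩)
    · exact Or.inl (hinj w w' h1)
    · exact Or.inr (Or.inr ⟨key w' w hw'.1 hw.1 h1, h1⟩)
  · intro e u v huv
    obtain ⟨t, ht⟩ := he e
    have hu : u ∈ bag t := ht u (by rw [huv]; exact Sym2.mem_mk_left u v)
    have hv' : v ∈ bag t := ht v (by rw [huv]; exact Sym2.mem_mk_right u v)
    rcases lt_trichotomy (rk u) (rk v) with h1 | h1 | h1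
    · exact Or.inl ⟨hB v t _ hv' (hA u t hu) (hrk u v h1.le), h1⟩
    · exfalso
      have h2 := hinj u v h1
      apply G.loopless e
      rw [huv, h2]
      exact Sym2.mk_isDiag_iff.2 rfl
    · exact Or.inr ⟨hB u t _ hu (hA v t hv') (hrk v u h1.le), h1⟩

end Pool.Agent.W2411si
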